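import Pool.Agent.W622.ETG.Stm

set_option autoImplicit false

namespace Pool.Agent.W160.ELG

open Pool.Agent.W622.ETG Module

theorem t_OM : S_OM := by
  intro V _ _ _ e A F hA hF
  have hF' : ∃ ω, LocForm e A F ω := hF
  have hom : om e A F = hF'.choose := by
    unfold om
    rw [dif_pos hF']
  have hs : LocForm e A F (om e A F) := by rw [hom]; exact hF'.choose_spec
  obtain ⟨⟨h1, h2, h3⟩, h4, -⟩ := hs
  have h6 : 0 < finrank (ZMod 2) F := by
    rw [Module.finrank_pos_iff, Submodule.nontrivial_iff_ne_bot]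
    intro h
    exact h2 (sp_eq_bot.1 (h4.symm.trans h))
  refine ⟨h1, h2, h4.symm, ?_, h6, ?_⟩
  · intro η hη
    rw [mem_res'] at hη
    exact h3 η hη.1 (hη.2.trans h4.le)
  · intro hd
    obtain ⟨s, hs0, hs⟩ := finrank_eq_one_iff'.1 hd
    have hsp : F = Submodule.span (ZMod 2) {(s : Dl V)} := by
      apply le_antisymm
      · intro f hf
        obtain ⟨c, hc⟩ := hs ⟨f, hf⟩
        rw [Submodule.mem_span_singleton]
        exact ⟨c, by rw [← Submodule.coe_smul, hc]⟩
      · rw [Submodule.span_singleton_le_iff_mem]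
        exact s.2
    obtain ⟨h7, h8⟩ := (hA _ h1).eq_sqf (s := (s : Dl V)) (h4.symm.trans hsp).le h2
    refine ⟨?_, (s : Dl V), h8, hsp, h7⟩
    intro c ω' hω' hc
    rw [hsp] at hc
    rcases span_one_mem.mp hc with hc | hc
    · exact ⟨0, Submodule.zero_mem _, by rw [hc]; rfl⟩
    · refine ⟨om e A F, mem_res'.2 ⟨h1, h4.symm.le⟩, ?_⟩
      have h9 : (s : Dl V) c = 1 := by
        rw [← hc, (hA _ hω').sq, hc, h8]
      rw [hc, h7, sqf_apply, h9, one_smul]

end Pool.Agent.W160.ELG
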